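import Mathlib

namespace Pool.Agent.Results.MP_c55a01_nt.NotAuto

/-- The `k`-kernel of a sequence. -/
def kernel (k : ℕ) (a : ℕ → ℤ) : Set (ℕ → ℤ) :=
  {f | ∃ e j : ℕ, j < k ^ e ∧ f = fun n => a (k ^ e * n + j)}

/-- `a` takes finitely many values and has a finite `k`-kernel. -/
def IsKAutomatic (k : ℕ) (a : ℕ → ℤ) : Prop :=
  (Set.range a).Finite ∧ (kernel k a).Finite

/-- `a` is `k`-automatic for some `k ≥ 2`. -/
def IsAutomatic (a : ℕ → ℤ) : Prop := ∃ k : ℕ, 2 ≤ k ∧ IsKAutomatic k a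

/-- `r 0 = 0`, `r 1 = 1`, `r n = a n * r (n - 1) + r (n - 2)` for `n ≥ 2`. -/
def r (a : ℕ → ℤ) : ℕ → ℤ
  | 0 => 0
  | 1 => 1
  | (n + 2) => a (n + 2) * r a (n + 1) + r a n

def c (m : ℕ) : ℤ := if 2 * m < 3 * 2 ^ Nat.log 2 m then -1 else 1

def b (m : ℕ) : ℤ := if m = 2 ^ Nat.log 2 m then 0 else c m

def a (n : ℕ) : ℤ := if n = 2 then 1 else if n % 2 = 0 then 0 else b (n / 2)

lemma log_eq {m i : ℕ} (h1 : 2 ^ i ≤ m) (h2 : m < 2 ^ (i + 1)) : Nat.log 2 m = i :=
  Nat.log_eq_of_pow_le_of_lt_pow h1 h2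

lemma blk (m : ℕ) (hm : 2 ≤ m) : ∃ i, 2 ^ (i + 1) ≤ m ∧ m < 2 ^ (i + 2) := by
  have h1 : 2 ^ Nat.log 2 m ≤ m := Nat.pow_log_le_self 2 (by omega)
  have h2 : m < 2 ^ (Nat.log 2 m + 1) := Nat.lt_pow_succ_log_self (by norm_num) m
  have h3 : 1 ≤ Nat.log 2 m := by
    by_contra h
    have : Nat.log 2 m = 0 := by omega
    rw [this] at h2
    omega
  refine ⟨Nat.log 2 m - 1, ?_, ?_⟩
  · rwa [show Nat.log 2 m - 1 + 1 = Nat.log 2 m by omega]
  · rwa [show Nat.log 2 m - 1 + 2 = Nat.log 2 m + 1 by omega]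

lemma step (m : ℕ) (hm : 2 ≤ m) :
    c (2 * m) = c m ∧ c (2 * m + 1) = c m ∧ b (2 * m) = b m ∧ b (2 * m + 1) = c m := by
  obtain ⟨i, h1, h2⟩ := blk m hm
  have e0 : Nat.log 2 m = i + 1 := log_eq h1 h2
  have p1 : 2 ^ (i + 1) = 2 * 2 ^ i := by ring
  have p2 : 2 ^ (i + 2) = 4 * 2 ^ i := by ring
  have p3 : 2 ^ (i + 2 + 1) = 8 * 2 ^ i := by ring
  have e1 : Nat.log 2 (2 * m) = i + 2 := log_eq (by omega) (by omega)
  have e2 : Nat.log 2 (2 * m + 1) = i + 2 := log_eq (by omega) (by omega)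
  have c1 : c (2 * m) = c m := by
    unfold c
    rw [e0, e1, p1, p2]
    split_ifs <;> first | rfl | omega
  have c2 : c (2 * m + 1) = c m := by
    unfold c
    rw [e0, e2, p1, p2]
    split_ifs <;> first | rfl | omega
  refine ⟨c1, c2, ?_, ?_⟩
  · unfold b
    rw [e0, e1, p1, p2, c1]
    split_ifs <;> first | rfl | omega
  · unfold b
    rw [e2, p2, c2]
    split_ifs <;> first | rfl | omega

lemma ker_bc (e : ℕ) : ∀ j, j < 2 ^ e →
    (∀ n, 2 ≤ n → c (2 ^ e * n + j) = c n) ∧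
    ((∀ n, 2 ≤ n → b (2 ^ e * n + j) = b n) ∨ (∀ n, 2 ≤ n → b (2 ^ e * n + j) = c n)) := by
  induction e with
  | zero =>
    intro j hj
    have : j = 0 := by omega
    subst this
    simp
  | succ e ih =>
    intro j hj
    have p1 : 2 ^ (e + 1) = 2 * 2 ^ e := by ring
    have hpos : 1 ≤ 2 ^ e := Nat.one_le_two_pow
    obtain ⟨hc, hb⟩ := ih (j / 2) (by omega)
    have big : ∀ n, 2 ≤ n → 2 ≤ 2 ^ e * n + j / 2 := by
      intro n hn
      nlinarith [Nat.zero_le (j / 2)]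
    rcases Nat.mod_two_eq_zero_or_one j with h0 | h0
    · have q : ∀ n, 2 ^ (e + 1) * n + j = 2 * (2 ^ e * n + j / 2) := by
        intro n
        rw [p1, mul_add, mul_assoc]
        omega
      refine ⟨fun n hn => ?_, ?_⟩
      · rw [q, (step _ (big n hn)).1, hc n hn]
      · rcases hb with hb | hb
        · left
          intro n hn
          rw [q, (step _ (big n hn)).2.2.1, hb n hn]
        · right
          intro n hn
          rw [q, (step _ (big n hn)).2.2.1, hb n hn]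
    · have q : ∀ n, 2 ^ (e + 1) * n + j = 2 * (2 ^ e * n + j / 2) + 1 := by
        intro n
        rw [p1, mul_add, mul_assoc]
        omega
      refine ⟨fun n hn => ?_, ?_⟩
      · rw [q, (step _ (big n hn)).2.1, hc n hn]
      · right
        intro n hn
        rw [q, (step _ (big n hn)).2.2.2, hc n hn]

lemma a_val (n : ℕ) : a n ∈ ({-1, 0, 1} : Set ℤ) := by
  unfold a b c
  split_ifs <;> simp

def glue (p : ℤ × ℤ × (ℕ → ℤ)) : ℕ → ℤ :=
  fun n => if n = 0 then p.1 else if n = 1 then p.2.1 else p.2.2 n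

lemma a_auto : IsKAutomatic 2 a := by
  refine ⟨(Set.toFinite ({-1, 0, 1} : Set ℤ)).subset ?_, ?_⟩
  · rintro _ ⟨n, rfl⟩
    exact a_val n
  · have hfin : (glue '' (({-1, 0, 1} : Set ℤ) ×ˢ (({-1, 0, 1} : Set ℤ) ×ˢ
        ({a, fun _ => 0, b, c} : Set (ℕ → ℤ))))).Finite :=
      Set.Finite.image _ ((Set.toFinite _).prod ((Set.toFinite _).prod (Set.toFinite _)))
    refine hfin.subset ?_
    rintro f ⟨e, j, hj, rfl⟩
    have key : ∃ h ∈ ({a, fun _ => 0, b, c} : Set (ℕ → ℤ)),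
        ∀ n, 2 ≤ n → a (2 ^ e * n + j) = h n := by
      cases e with
      | zero =>
        have : j = 0 := by omega
        subst this
        exact ⟨a, by simp, by simp⟩
      | succ e =>
        have p1 : 2 ^ (e + 1) = 2 * 2 ^ e := by ring
        have hpos : 1 ≤ 2 ^ e := Nat.one_le_two_pow
        have big : ∀ n, 2 ≤ n → 2 ≤ 2 ^ e * n := by
          intro n hn
          nlinarith
        have q : ∀ n, 2 ^ (e + 1) * n = 2 * (2 ^ e * n) := by
          intro n
          rw [p1, mul_assoc]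
        rcases Nat.mod_two_eq_zero_or_one j with h0 | h0
        · refine ⟨fun _ => 0, by simp, fun n hn => ?_⟩
          have := big n hn
          unfold a
          rw [q, if_neg (by omega), if_pos (by omega)]
        · have q2 : ∀ n, 2 ≤ n → a (2 ^ (e + 1) * n + j) = b (2 ^ e * n + j / 2) := by
            intro n hn
            have := big n hn
            unfold a
            rw [q, if_neg (by omega), if_neg (by omega)]
            congr 1
            omega
          rcases (ker_bc e (j / 2) (by omega)).2 with hb | hb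
          · exact ⟨b, by simp, fun n hn => by rw [q2 n hn, hb n hn]⟩
          · exact ⟨c, by simp, fun n hn => by rw [q2 n hn, hb n hn]⟩
    obtain ⟨h, hh, hk⟩ := key
    refine ⟨(a (2 ^ e * 0 + j), a (2 ^ e * 1 + j), h), ⟨a_val _, a_val _, hh⟩, ?_⟩
    funext n
    unfold glue
    split_ifs with h0 h1
    · rw [h0]
    · rw [h1]
    · exact (hk n (by omega)).symm

lemma r_even (m : ℕ) : r a (2 * m + 2) = 1 := by
  induction m with
  | zero => simp [r, a]
  | succ m ih =>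
    have : 2 * (m + 1) + 2 = (2 * m + 2) + 2 := by ring
    rw [this, r, ih]
    unfold a
    rw [if_neg (by omega), if_pos (by omega)]
    ring

lemma r_odd (m : ℕ) : r a (2 * (m + 1) + 1) = b (m + 1) + r a (2 * m + 1) := by
  have : 2 * (m + 1) + 1 = (2 * m + 1) + 2 := by ring
  rw [this, r, show 2 * m + 1 + 1 = 2 * m + 2 by ring, r_even]
  unfold a
  rw [if_neg (by omega), if_neg (by omega), show (2 * m + 1 + 2) / 2 = m + 1 by omega]
  ring

lemma r_formula (m : ℕ) (hm : 2 ≤ m) : ∀ i : ℕ, 2 ^ (i + 1) ≤ m → m < 2 ^ (i + 2) →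
    r a (2 * m + 1) = if m < 3 * 2 ^ i then (i : ℤ) + 1 - m + 2 * ((2 ^ i : ℕ) : ℤ)
      else (i : ℤ) + 3 + m - 4 * ((2 ^ i : ℕ) : ℤ) := by
  induction m, hm using Nat.le_induction with
  | base =>
    intro i h1 h2
    have : i = 0 := by
      by_contra h
      have : 2 ^ 2 ≤ 2 ^ (i + 1) := Nat.pow_le_pow_right (by norm_num) (by omega)
      omega
    subst this
    have : Nat.log 2 2 = 1 := by norm_num
    have h1 : Nat.log 2 1 = 0 := by norm_num
    simp [r, a, b, this]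
  | succ m hm ih =>
    intro i h1 h2
    have p1 : 2 ^ (i + 1) = 2 * 2 ^ i := by ring
    have p2 : 2 ^ (i + 2) = 4 * 2 ^ i := by ring
    have e0 : Nat.log 2 (m + 1) = i + 1 := log_eq h1 h2
    rw [r_odd]
    unfold b c
    rw [e0, p1]
    by_cases hh : m + 1 = 2 * 2 ^ i
    · cases i with
      | zero => omega
      | succ i =>
        have p3 : 2 ^ (i + 1) = 2 * 2 ^ i := by ring
        have p4 : 2 ^ (i + 2) = 4 * 2 ^ i := by ring
        have hpos : 1 ≤ 2 ^ i := Nat.one_le_two_pow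
        rw [ih i (by omega) (by omega)]
        split_ifs <;> omega
    · rw [ih i (by omega) (by omega)]
      split_ifs <;> omega

lemma pow_big (i : ℕ) : i + 1 ≤ 2 ^ i := Nat.lt_two_pow_self

lemma pow_big2 (i : ℕ) (hi : 5 ≤ i) : 4 * i + 8 ≤ 2 ^ i := by
  induction i, hi using Nat.le_induction with
  | base => norm_num
  | succ i _ ih =>
    have : 2 ^ (i + 1) = 2 * 2 ^ i := by ring
    omega

/-- two positive positions with ratio at most 5/4 are logarithmically close -/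
lemma close (m1 m2 i : ℕ) (hi : 5 ≤ i) (h1 : 2 ^ (i + 1) ≤ m1) (h2 : m1 < 2 ^ (i + 2))
    (hle : m1 ≤ m2) (hr : 4 * m2 ≤ 5 * m1) (p1 : 0 < r a (2 * m1 + 1))
    (p2 : 0 < r a (2 * m2 + 1)) : m2 ≤ m1 + 2 * i + 5 := by
  have q1 : 2 ^ (i + 1) = 2 * 2 ^ i := by ring
  have q2 : 2 ^ (i + 2) = 4 * 2 ^ i := by ring
  have q3 : 2 ^ (i + 1 + 1) = 4 * 2 ^ i := by ring
  have q4 : 2 ^ (i + 1 + 2) = 8 * 2 ^ i := by ring
  have hb := pow_big2 i hi
  rw [r_formula m1 (by omega) i h1 h2] at p1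
  by_cases hm : m2 < 2 ^ (i + 2)
  · rw [r_formula m2 (by omega) i (by omega) hm] at p2
    split_ifs at p1 p2 <;> omega
  · rw [r_formula m2 (by omega) (i + 1) (by omega) (by omega), q1] at p2
    split_ifs at p1 p2 <;> omega

lemma run (K : ℕ) (hK : 1 ≤ K) :
    ∃ n, 4 ≤ n ∧ 0 < r a (2 * (K * n) + 1) ∧ 0 < r a (2 * (K * (n + 1)) + 1) := by
  set i := 2 * K + 5 with hi
  have hb := pow_big2 i (by omega)
  have q1 : 2 ^ (i + 1) = 2 * 2 ^ i := by ring
  have q2 : 2 ^ (i + 2) = 4 * 2 ^ i := by ring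
  set n := 2 ^ (i + 1) / K + 1 with hn
  have d1 := Nat.div_add_mod (2 ^ (i + 1)) K
  have d2 := Nat.mod_lt (2 ^ (i + 1)) (show K > 0 by omega)
  have e1 : K * n = K * (2 ^ (i + 1) / K) + K := by rw [hn]; ring
  have e2 : K * (n + 1) = K * n + K := by ring
  refine ⟨n, ?_, ?_, ?_⟩
  · by_contra h
    have : K * n ≤ K * 4 := Nat.mul_le_mul_left K (by omega)
    omega
  · rw [r_formula _ (by omega) i (by omega) (by omega)]
    split_ifs <;> omega
  · rw [r_formula _ (by omega) i (by omega) (by omega)]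
    split_ifs <;> omega

lemma not_auto : ¬ IsAutomatic (fun n => Int.sign (r a n)) := by
  rintro ⟨k, hk, -, hfin⟩
  have hmap : ∀ e : ℕ, (fun n => Int.sign (r a (k ^ (e + 1) * n + 1))) ∈
      kernel k (fun n => Int.sign (r a n)) := by
    intro e
    exact ⟨e + 1, 1, Nat.one_lt_pow (by omega) (by omega), rfl⟩
  obtain ⟨e, e', hlt, heq⟩ := Set.Finite.exists_lt_map_eq_of_forall_mem hmap hfin
  set K := k ^ (e + 1) with hKdef
  set M := k ^ (e' - e) with hMdef
  have hK : 1 ≤ K := Nat.one_le_pow _ _ (by omega)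
  have hM : 2 ≤ M := Nat.one_lt_pow (by omega) (by omega)
  have hKM : k ^ (e' + 1) = K * M := by
    rw [hKdef, hMdef, ← pow_add]
    congr 1
    omega
  have g1 : ∀ n, Int.sign (r a (K * (M * n) + 1)) = Int.sign (r a (K * n + 1)) := by
    intro n
    have := congrFun heq n
    simp only [hKM] at this
    rw [← mul_assoc]
    exact this.symm
  have g2 : ∀ t n, Int.sign (r a (K * (M ^ t * n) + 1)) = Int.sign (r a (K * n + 1)) := by
    intro t
    induction t with
    | zero => intro n; simp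
    | succ t ih =>
      intro n
      rw [show M ^ (t + 1) * n = M * (M ^ t * n) by ring, g1, ih]
  have g3 : ∀ t n, 0 < r a (2 * (K * n) + 1) → 0 < r a (2 * (M ^ t * K * n) + 1) := by
    intro t n h
    have h2 := g2 t (2 * n)
    rw [show K * (M ^ t * (2 * n)) = 2 * (M ^ t * K * n) by ring,
      show K * (2 * n) = 2 * (K * n) by ring, Int.sign_eq_one_of_pos h] at h2
    exact Int.sign_eq_one_iff_pos.mp h2
  obtain ⟨n, hn, p1, p2⟩ := run K hK
  set t := n + 10 with ht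
  set X := M ^ t * K with hX
  have hX1 : 2 ^ t ≤ X := by
    have : 2 ^ t ≤ M ^ t := Nat.pow_le_pow_left hM t
    nlinarith
  have hX2 : 1024 * (n + 1) ≤ X := by
    have := pow_big n
    have : 2 ^ t = 1024 * 2 ^ n := by rw [ht]; ring
    omega
  have hXn : X * 4 ≤ X * n := Nat.mul_le_mul_left X hn
  obtain ⟨i, h1, h2⟩ := blk (X * n) (by omega)
  have hi : 5 ≤ i := by
    by_contra h
    have : 2 ^ (i + 2) ≤ 2 ^ 6 := Nat.pow_le_pow_right (by norm_num) (by omega)
    omega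
  have e2 : X * (n + 1) = X * n + X := by ring
  have hc := close (X * n) (X * (n + 1)) i hi h1 h2 (by omega) (by omega) (g3 t n p1)
    (g3 t (n + 1) p2)
  have hXi : X ≤ 2 * i + 5 := by omega
  have hi2 : 509 ≤ i := by omega
  have hsq : ∀ j : ℕ, 9 ≤ j → (2 * j + 5) * (2 * j + 5) < 2 ^ (j + 1) := by
    intro j hj
    induction j, hj using Nat.le_induction with
    | base => norm_num
    | succ j hj ih =>
      have : 2 ^ (j + 1 + 1) = 2 * 2 ^ (j + 1) := by ring
      nlinarith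
  have := hsq i (by omega)
  have : X * n ≤ (2 * i + 5) * (2 * i + 5) := Nat.mul_le_mul hXi (by omega)
  omega

theorem result : ∃ a : ℕ → ℤ, IsAutomatic a ∧ ¬ IsAutomatic (fun n => Int.sign (r a n)) :=
  ⟨a, ⟨2, le_rfl, a_auto⟩, not_auto⟩

end Pool.Agent.Results.MP_c55a01_nt.NotAuto
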